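import Pool.Agent.PQP.StmtsV

/-!
# Row CUT of the squad PQP: the logarithmic cutoff
-/

set_option autoImplicit false

open scoped InnerProductSpace Topology ContDiff Manifold
open MeasureTheory Filter Set

noncomputable section

namespace Pool.Agent.PQP.H58

open Pool.Agent.Helper42_Paneitz Pool.Agent.Helper82_Vir Pool.Agent.FLX

theorem sm_log {W : S4 → ℝ} (hW : Sm W) (h0 : ∀ x, 0 < W x) : Sm (fun z => Real.log (W z)) := by
  intro y hy
  have h1 : radialExt (fun x => Real.log (W x)) =ᶠ[𝓝 y] fun z => Real.log (radialExt W z) := by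
    filter_upwards [eventually_ne_zero hy] with z hz
    simp only [radialExt_apply _ hz]
  have h2 : radialExt W y ≠ 0 := by
    rw [radialExt_apply _ hy]
    exact (h0 _).ne'
  exact ((hW y hy).log h2).congr_of_eventuallyEq h1

/-- the derivative of the smooth step is bounded -/
theorem exM : ∃ M : ℝ, 0 ≤ M ∧ ∀ t, |deriv Real.smoothTransition t| ≤ M := by
  have hc : Continuous (deriv Real.smoothTransition) :=
    (Real.smoothTransition.contDiff (n := 1)).continuous_deriv (by norm_num)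
  obtain ⟨C, hC⟩ := isCompact_Icc.exists_bound_of_continuousOn (hc.continuousOn (s := Icc (0 : ℝ) 1))
  refine ⟨max C 0, le_max_right _ _, fun t => ?_⟩
  by_cases ht : t ∈ Icc (0 : ℝ) 1
  · exact (hC t ht).trans (le_max_left _ _)
  · have h0 : deriv Real.smoothTransition t = 0 := by
      rw [mem_Icc, not_and_or, not_le, not_le] at ht
      rcases ht with ht | ht
      · have h1 : Real.smoothTransition =ᶠ[𝓝 t] fun _ => (0 : ℝ) := by
          filter_upwards [eventually_lt_nhds ht] with s hs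
          exact Real.smoothTransition.zero_of_nonpos hs.le
        rw [h1.deriv_eq]
        simp
      · have h1 : Real.smoothTransition =ᶠ[𝓝 t] fun _ => (1 : ℝ) := by
          filter_upwards [eventually_gt_nhds ht] with s hs
          exact Real.smoothTransition.one_of_one_le hs.le
        rw [h1.deriv_eq]
        simp
    rw [h0, abs_zero]
    exact le_max_right _ _

/-- the cutoff -/
def gc (r R c : ℝ) : ℝ :=
  if c < 1 then Real.smoothTransition ((Real.log R - Real.log (1 - c)) / Real.log (R / r)) else 1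

section gc

variable {r R : ℝ}

theorem L_pos (hr : 0 < r) (hR : 2 * r ≤ R) : 0 < Real.log (R / r) := by
  apply Real.log_pos
  rw [one_lt_div hr]
  linarith

theorem gc_one (hr : 0 < r) (hR : 2 * r ≤ R) {c : ℝ} (hc : 1 - c ≤ r) : gc r R c = 1 := by
  unfold gc
  split_ifs with h
  · apply Real.smoothTransition.one_of_one_le
    rw [le_div_iff₀ (L_pos hr hR), one_mul, Real.log_div (by linarith) hr.ne']
    have := Real.log_le_log (by linarith : 0 < 1 - c) hc
    linarith
  · rfl

theorem gc_zero (hr : 0 < r) (hR : 2 * r ≤ R) {c : ℝ} (hc : R ≤ 1 - c) : gc r R c = 0 := by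
  unfold gc
  rw [if_pos (by linarith)]
  apply Real.smoothTransition.zero_of_nonpos
  apply div_nonpos_of_nonpos_of_nonneg _ (L_pos hr hR).le
  have := Real.log_le_log (by linarith : 0 < R) hc
  linarith

theorem gc_mem (c : ℝ) : 0 ≤ gc r R c ∧ gc r R c ≤ 1 := by
  unfold gc
  split_ifs
  · exact ⟨Real.smoothTransition.nonneg _, Real.smoothTransition.le_one _⟩
  · exact ⟨zero_le_one, le_rfl⟩

theorem gc_mono (hr : 0 < r) (hR : 2 * r ≤ R) {a b : ℝ} (hab : a ≤ b) :
    gc r R a ≤ gc r R b := by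
  by_cases hb : b < 1
  · unfold gc
    rw [if_pos hb, if_pos (lt_of_le_of_lt hab hb)]
    apply Real.smoothTransition.monotone
    apply div_le_div_of_nonneg_right _ (L_pos hr hR).le
    have := Real.log_le_log (by linarith : 0 < 1 - b) (by linarith : 1 - b ≤ 1 - a)
    linarith
  · have h1 : gc r R b = 1 := by
      unfold gc
      rw [if_neg hb]
    rw [h1]
    exact (gc_mem a).2

theorem gc_smooth (hr : 0 < r) (hR : 2 * r ≤ R) : ContDiff ℝ ∞ (gc r R) := by
  rw [contDiff_iff_contDiffAt]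
  intro c
  by_cases hc : c < 1
  · have h1 : gc r R =ᶠ[𝓝 c] fun c =>
        Real.smoothTransition ((Real.log R - Real.log (1 - c)) / Real.log (R / r)) := by
      filter_upwards [eventually_lt_nhds hc] with s hs
      unfold gc
      rw [if_pos hs]
    have h2 : ContDiffAt ℝ ∞ (fun c : ℝ => (Real.log R - Real.log (1 - c)) / Real.log (R / r)) c :=
      (contDiffAt_const.sub ((contDiffAt_const.sub contDiffAt_id).log (by
        show (1 : ℝ) - c ≠ 0
        exact (by linarith : (0 : ℝ) < 1 - c).ne'))).div_const _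
    exact (Real.smoothTransition.contDiff.contDiffAt.comp c h2).congr_of_eventuallyEq h1
  · have h1 : gc r R =ᶠ[𝓝 c] fun _ => (1 : ℝ) := by
      have : 1 - r < c := by linarith
      filter_upwards [eventually_gt_nhds this] with s hs
      exact gc_one hr hR (by linarith)
    exact contDiffAt_const.congr_of_eventuallyEq h1

theorem gc_deriv {M : ℝ} (hM0 : 0 ≤ M) (hM : ∀ t, |deriv Real.smoothTransition t| ≤ M)
    (hr : 0 < r) (hR : 2 * r ≤ R) {c : ℝ} (h1 : -1 ≤ c) (h2 : c ≤ 1) :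
    |deriv (gc r R) c * (1 - c ^ 2)| ≤ 2 * M / Real.log (R / r) := by
  have hL := L_pos hr hR
  rcases h2.lt_or_eq with hc | hc
  · have e1 : gc r R =ᶠ[𝓝 c] fun c =>
        Real.smoothTransition ((Real.log R - Real.log (1 - c)) / Real.log (R / r)) := by
      filter_upwards [eventually_lt_nhds hc] with s hs
      unfold gc
      rw [if_pos hs]
    have e2 : HasDerivAt (fun c : ℝ => (Real.log R - Real.log (1 - c)) / Real.log (R / r))
        ((0 - (0 - 1) / (1 - c)) / Real.log (R / r)) c :=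
      ((hasDerivAt_const c (Real.log R)).sub
        (((hasDerivAt_const c (1 : ℝ)).sub (hasDerivAt_id c)).log (by
          show (1 : ℝ) - c ≠ 0
          exact (by linarith : (0 : ℝ) < 1 - c).ne'))).div_const _
    have e3 : HasDerivAt Real.smoothTransition
        (deriv Real.smoothTransition ((Real.log R - Real.log (1 - c)) / Real.log (R / r)))
        ((Real.log R - Real.log (1 - c)) / Real.log (R / r)) :=
      ((Real.smoothTransition.contDiff (n := 1)).differentiable (by norm_num) _).hasDerivAt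
    have e4 := e3.comp c e2
    have e5 : deriv (gc r R) c =
        deriv Real.smoothTransition ((Real.log R - Real.log (1 - c)) / Real.log (R / r)) *
          ((0 - (0 - 1) / (1 - c)) / Real.log (R / r)) := by
      rw [e1.deriv_eq]
      exact e4.deriv
    rw [e5]
    set S := deriv Real.smoothTransition ((Real.log R - Real.log (1 - c)) / Real.log (R / r))
      with hS
    have hS' := hM ((Real.log R - Real.log (1 - c)) / Real.log (R / r))
    rw [← hS] at hS'
    have h3 : 0 < 1 - c := by linarith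
    have e6 : S * ((0 - (0 - 1) / (1 - c)) / Real.log (R / r)) * (1 - c ^ 2) =
        S * (1 + c) / Real.log (R / r) := by
      field_simp
      ring
    rw [e6, abs_div, abs_mul, abs_of_pos hL, abs_of_nonneg (by linarith : 0 ≤ 1 + c)]
    apply div_le_div_of_nonneg_right _ hL.le
    nlinarith [abs_nonneg S]
  · rw [hc]
    norm_num
    positivity

theorem gc_lip (hr : 0 < r) (hR : 2 * r ≤ R) : ∃ K : ℝ, 0 ≤ K ∧ ∀ a ∈ Icc (-1 : ℝ) 1,
    ∀ b ∈ Icc (-1 : ℝ) 1, |gc r R a - gc r R b| ≤ K * |a - b| := by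
  have h1 := gc_smooth hr hR
  have hc : Continuous (deriv (gc r R)) := h1.continuous_deriv (by simp)
  obtain ⟨K, hK⟩ := isCompact_Icc.exists_bound_of_continuousOn
    (hc.continuousOn (s := Icc (-1 : ℝ) 1))
  refine ⟨max K 0, le_max_right _ _, fun a ha b hb => ?_⟩
  have h2 := (convex_Icc (-1 : ℝ) 1).norm_image_sub_le_of_norm_deriv_le (f := gc r R)
    (C := max K 0) (fun x _ => (h1.differentiable (by simp)) x)
    (fun x hx => (hK x hx).trans (le_max_left _ _)) hb ha
  simpa [Real.norm_eq_abs] using h2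

end gc

section main

variable {W f : S4 → ℝ} {z : S4} {r R : ℝ}

theorem cont_c (z : S4) : Continuous fun x : S4 => ⟪(z : E5), (x : E5)⟫_ℝ :=
  continuous_const.inner continuous_subtype_val

theorem sq_le (z x y : S4) : (⟪(z : E5), (x : E5)⟫_ℝ - ⟪(z : E5), (y : E5)⟫_ℝ) ^ 2 ≤
    2 * (1 - ⟪(x : E5), (y : E5)⟫_ℝ) := by
  have h1 : |⟪(z : E5), (x : E5)⟫_ℝ - ⟪(z : E5), (y : E5)⟫_ℝ| ≤ dist y x := by
    rw [← inner_sub_right, Subtype.dist_eq, dist_comm, dist_eq_norm]
    have := abs_real_inner_le_norm (z : E5) ((x : E5) - (y : E5))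
    rwa [S4_norm, one_mul] at this
  rw [← dist_sq, ← sq_abs]
  exact pow_le_pow_left₀ (abs_nonneg _) h1 2

/-- the kernel of the right side -/
def HH (f : S4 → ℝ) (z : S4) (r R : ℝ) (p : S4 × S4) : ℝ :=
  (gc r R ⟪(z : E5), (p.1 : E5)⟫_ℝ - gc r R ⟪(z : E5), (p.2 : E5)⟫_ℝ) *
    (⟪(z : E5), (p.1 : E5)⟫_ℝ - ⟪(z : E5), (p.2 : E5)⟫_ℝ) / (1 - ⟪(p.1 : E5), (p.2 : E5)⟫_ℝ) *
      (f p.1 * f p.2)

theorem HH_nonneg (hr : 0 < r) (hR : 2 * r ≤ R) (hf : ∀ x, 0 < f x) (p : S4 × S4) :
    0 ≤ HH f z r R p := by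
  unfold HH
  have h1 := inner_le_one p.1 p.2
  apply mul_nonneg _ (mul_nonneg (hf _).le (hf _).le)
  apply div_nonneg _ (by linarith)
  rcases le_total ⟪(z : E5), (p.1 : E5)⟫_ℝ ⟪(z : E5), (p.2 : E5)⟫_ℝ with h | h
  · have := gc_mono hr hR h
    exact mul_nonneg_of_nonpos_of_nonpos (by linarith) (by linarith)
  · have := gc_mono hr hR h
    exact mul_nonneg (by linarith) (by linarith)

theorem HH_int (hr : 0 < r) (hR : 2 * r ≤ R) (hfc : Continuous f) (hf : ∀ x, 0 < f x) :
    Integrable (HH f z r R) (sig.prod sig) := by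
  obtain ⟨K, hK0, hK⟩ := gc_lip hr hR
  have hc1 : Continuous fun p : S4 × S4 => ⟪(z : E5), (p.1 : E5)⟫_ℝ := (cont_c z).comp continuous_fst
  have hc2 : Continuous fun p : S4 × S4 => ⟪(z : E5), (p.2 : E5)⟫_ℝ := (cont_c z).comp continuous_snd
  have hg : Continuous (gc r R) := (gc_smooth hr hR).continuous
  have hff : Continuous fun p : S4 × S4 => f p.1 * f p.2 :=
    (hfc.comp continuous_fst).mul (hfc.comp continuous_snd)
  have hm : AEStronglyMeasurable (HH f z r R) (sig.prod sig) := by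
    apply Measurable.aestronglyMeasurable
    unfold HH
    refine (Measurable.div ?_ ?_).mul hff.measurable
    · exact (((hg.comp hc1).sub (hg.comp hc2)).mul (hc1.sub hc2)).measurable
    · exact (continuous_const.sub continuous_inner_S4).measurable
  refine Integrable.mono' ((integrable2 hff).const_mul (2 * K)) hm (Eventually.of_forall fun p => ?_)
  have h0 := HH_nonneg (z := z) hr hR hf p
  rw [Real.norm_eq_abs, abs_of_nonneg h0]
  unfold HH
  have hfp : 0 ≤ f p.1 * f p.2 := mul_nonneg (hf _).le (hf _).le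
  refine mul_le_mul_of_nonneg_right ?_ hfp
  have h1 := sq_le z p.1 p.2
  have h2 := inner_le_one p.1 p.2
  have h3 := hK ⟪(z : E5), (p.1 : E5)⟫_ℝ ⟨neg_one_le_inner _ _, inner_le_one _ _⟩
    ⟪(z : E5), (p.2 : E5)⟫_ℝ ⟨neg_one_le_inner _ _, inner_le_one _ _⟩
  rcases (by linarith : 0 ≤ 1 - ⟪(p.1 : E5), (p.2 : E5)⟫_ℝ).eq_or_lt with h4 | h4
  · rw [← h4, div_zero]
    positivity
  · rw [div_le_iff₀ h4]
    set a := ⟪(z : E5), (p.1 : E5)⟫_ℝ
    set b := ⟪(z : E5), (p.2 : E5)⟫_ℝ
    calc (gc r R a - gc r R b) * (a - b) ≤ |(gc r R a - gc r R b) * (a - b)| := le_abs_self _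
      _ = |gc r R a - gc r R b| * |a - b| := abs_mul _ _
      _ ≤ K * |a - b| * |a - b| := mul_le_mul_of_nonneg_right h3 (abs_nonneg _)
      _ = K * (a - b) ^ 2 := by rw [mul_assoc, abs_mul_abs_self]; ring
      _ ≤ K * (2 * (1 - ⟪(p.1 : E5), (p.2 : E5)⟫_ℝ)) := mul_le_mul_of_nonneg_left h1 hK0
      _ = 2 * K * (1 - ⟪(p.1 : E5), (p.2 : E5)⟫_ℝ) := by ring

theorem HH_low (hr : 0 < r) (hR : 2 * r ≤ R) (hf : ∀ x, 0 < f x) {p : S4 × S4}
    (h1 : p.1 ∈ cap z r) (h2 : p.2 ∈ (cap z R)ᶜ) : 1 / 8 * (f p.1 * f p.2) ≤ HH f z r R p := by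
  simp only [cap, mem_ofPred_eq, mem_compl_iff, not_le] at h1 h2
  unfold HH
  refine mul_le_mul_of_nonneg_right ?_ (mul_nonneg (hf _).le (hf _).le)
  rw [gc_one hr hR h1, gc_zero hr hR h2.le]
  have h3 := sq_le z p.1 p.2
  have h5 := inner_le_one p.1 p.2
  have h6 := dist_sq p.1 p.2
  have h7 := dist_sq z p.1
  have h8 := dist_sq z p.2
  have h9 := dist_triangle p.2 z p.1
  rw [dist_comm z p.1] at h9
  set a := ⟪(z : E5), (p.1 : E5)⟫_ℝ
  set b := ⟪(z : E5), (p.2 : E5)⟫_ℝ
  have h4 : 0 < 1 - ⟪(p.1 : E5), (p.2 : E5)⟫_ℝ := by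
    have : 0 < (a - b) ^ 2 := pow_pos (by linarith) 2
    linarith
  have ha : dist p.1 z ≤ dist p.2 z := by
    exact abs_le_of_sq_le_sq' (by linarith) dist_nonneg |>.2
  have h10 : dist p.2 p.1 ^ 2 ≤ (2 * dist p.2 z) ^ 2 :=
    pow_le_pow_left₀ dist_nonneg (by linarith) 2
  rw [le_div_iff₀ h4]
  nlinarith

theorem HH_lower (hr : 0 < r) (hR : 2 * r ≤ R) (hD : Dens f) :
    1 / 8 * (mas f z r * (1 - mas f z R)) ≤
      ∫ x, ∫ y, HH f z r R (x, y) ∂sig ∂sig := by
  obtain ⟨hfc, hf, hf1⟩ := hD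
  have hi := HH_int (z := z) hr hR hfc hf
  have hfi : Integrable f sig := integrable_cont hfc
  rw [← integral_prod _ hi]
  have hA : MeasurableSet (cap z r) :=
    measurableSet_le (continuous_const.sub (cont_c z)).measurable measurable_const
  have hB : MeasurableSet (cap z R) :=
    measurableSet_le (continuous_const.sub (cont_c z)).measurable measurable_const
  have h1 : ∫ y in (cap z R)ᶜ, f y ∂sig = 1 - mas f z R := by
    have := integral_add_compl hB hfi
    unfold mas
    linarith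
  have h2 : ∫ p in (cap z r) ×ˢ (cap z R)ᶜ, f p.1 * f p.2 ∂(sig.prod sig) =
      mas f z r * (1 - mas f z R) := by
    rw [setIntegral_prod_mul, h1]
    rfl
  have hff : Continuous fun p : S4 × S4 => f p.1 * f p.2 :=
    (hfc.comp continuous_fst).mul (hfc.comp continuous_snd)
  have hAB : MeasurableSet ((cap z r) ×ˢ (cap z R)ᶜ) := hA.prod hB.compl
  calc 1 / 8 * (mas f z r * (1 - mas f z R))
      = ∫ p in (cap z r) ×ˢ (cap z R)ᶜ, 1 / 8 * (f p.1 * f p.2) ∂(sig.prod sig) := by
        rw [integral_const_mul, h2]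
    _ ≤ ∫ p in (cap z r) ×ˢ (cap z R)ᶜ, HH f z r R p ∂(sig.prod sig) := by
        apply setIntegral_mono_on ((integrable2 hff).const_mul _).integrableOn hi.integrableOn hAB
        intro p hp
        exact HH_low hr hR hf hp.1 hp.2
    _ ≤ ∫ p, HH f z r R p ∂(sig.prod sig) :=
        setIntegral_le_integral hi (Eventually.of_forall (HH_nonneg hr hR hf))

theorem lhs_bound {F : S4 → ℝ} {B : ℝ} (hD : Dens f) (hF : ∀ x, |F x| ≤ B) :
    ∫ x, F x * f x ∂sig ≤ B := by
  obtain ⟨hfc, hf, hf1⟩ := hD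
  have h1 : ‖∫ x, F x * f x ∂sig‖ ≤ ∫ x, B * f x ∂sig := by
    apply norm_integral_le_of_norm_le ((integrable_cont hfc).const_mul B)
    refine Eventually.of_forall fun x => ?_
    rw [Real.norm_eq_abs, abs_mul, abs_of_pos (hf x)]
    exact mul_le_mul_of_nonneg_right (hF x) (hf x).le
  rw [integral_const_mul, hf1, mul_one, Real.norm_eq_abs] at h1
  exact (le_abs_self _).trans h1

end main

theorem cut (zvi : ZviStmt) (kwa : KwaStmt) : CutStmt := by
  obtain ⟨M, hM0, hM⟩ := exM
  refine ⟨8 * M + 4, by linarith, ?_⟩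
  intro W f z r R D hW hWp hS hr hR hR1 hD0 hcase
  have hL := L_pos hr hR
  have hD := hS.1
  obtain ⟨hfc, hf, hf1⟩ := hD
  have hz := zvi W f z (gc r R) hW hWp hS (gc_smooth hr hR)
  have hlow := HH_lower (z := z) hr hR hS.1
  unfold HH at hlow
  have hcW : Continuous fun x : S4 =>
      dlog W x ((z : E5) - ⟪(z : E5), (x : E5)⟫_ℝ • (x : E5)) := by
    unfold dlog
    exact continuous_dd_field (sm_log hW hWp)
      (continuous_const.sub ((cont_c z).smul continuous_subtype_val))
  have hder : ∀ x : S4, |deriv (gc r R) ⟪(z : E5), (x : E5)⟫_ℝ * (1 - ⟪(z : E5), (x : E5)⟫_ℝ ^ 2)| ≤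
      2 * M / Real.log (R / r) :=
    fun x => gc_deriv hM0 hM hr hR (neg_one_le_inner _ _) (inner_le_one _ _)
  have key : ∫ x : S4, (gc r R ⟪(z : E5), (x : E5)⟫_ℝ *
      dlog W x ((z : E5) - ⟪(z : E5), (x : E5)⟫_ℝ • (x : E5)) +
      deriv (gc r R) ⟪(z : E5), (x : E5)⟫_ℝ * (1 - ⟪(z : E5), (x : E5)⟫_ℝ ^ 2)) * f x ∂sig ≤
      D + 2 * M / Real.log (R / r) := by
    rcases hcase with hc | hc
    · apply lhs_bound hS.1
      intro x
      refine (abs_add_le _ _).trans (add_le_add ?_ (hder x))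
      rw [abs_mul]
      by_cases h : 1 - ⟪(z : E5), (x : E5)⟫_ℝ ≤ R
      · have h1 := gc_mem (r := r) (R := R) ⟪(z : E5), (x : E5)⟫_ℝ
        rw [abs_of_nonneg h1.1]
        calc _ ≤ 1 * D := mul_le_mul h1.2 (hc x h) (abs_nonneg _) zero_le_one
          _ = D := one_mul D
      · rw [gc_zero hr hR (not_le.1 h).le, abs_zero, zero_mul]
        exact hD0
    · have hk := kwa W f (z : E5) 0 hW hWp hS (fun v => by simp)
      have e0 : ∀ x : S4, cf (z : E5) 0 x = (z : E5) - ⟪(z : E5), (x : E5)⟫_ℝ • (x : E5) := by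
        intro x
        simp [cf]
      simp only [e0] at hk
      have hg : Continuous (gc r R) := (gc_smooth hr hR).continuous
      have hgd : Continuous (deriv (gc r R)) := (gc_smooth hr hR).continuous_deriv (by simp)
      have hi1 : Integrable (fun x : S4 => (gc r R ⟪(z : E5), (x : E5)⟫_ℝ *
          dlog W x ((z : E5) - ⟪(z : E5), (x : E5)⟫_ℝ • (x : E5)) +
          deriv (gc r R) ⟪(z : E5), (x : E5)⟫_ℝ * (1 - ⟪(z : E5), (x : E5)⟫_ℝ ^ 2)) * f x) sig := by
        apply integrable_cont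
        exact (((hg.comp (cont_c z)).mul hcW).add ((hgd.comp (cont_c z)).mul
          (continuous_const.sub ((cont_c z).pow 2)))).mul hfc
      have hi2 : Integrable (fun x : S4 =>
          dlog W x ((z : E5) - ⟪(z : E5), (x : E5)⟫_ℝ • (x : E5)) * f x) sig :=
        integrable_cont (hcW.mul hfc)
      have e1 : ∫ x : S4, (gc r R ⟪(z : E5), (x : E5)⟫_ℝ *
          dlog W x ((z : E5) - ⟪(z : E5), (x : E5)⟫_ℝ • (x : E5)) +
          deriv (gc r R) ⟪(z : E5), (x : E5)⟫_ℝ * (1 - ⟪(z : E5), (x : E5)⟫_ℝ ^ 2)) * f x ∂sig =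
          ∫ x : S4, ((gc r R ⟪(z : E5), (x : E5)⟫_ℝ - 1) *
          dlog W x ((z : E5) - ⟪(z : E5), (x : E5)⟫_ℝ • (x : E5)) +
          deriv (gc r R) ⟪(z : E5), (x : E5)⟫_ℝ * (1 - ⟪(z : E5), (x : E5)⟫_ℝ ^ 2)) * f x ∂sig := by
        have e2 := integral_sub hi1 hi2
        rw [hk, sub_zero] at e2
        rw [← e2]
        congr 1
        funext x
        ring
      rw [e1]
      apply lhs_bound hS.1
      intro x
      refine (abs_add_le _ _).trans (add_le_add ?_ (hder x))
      rw [abs_mul]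
      by_cases h : r ≤ 1 - ⟪(z : E5), (x : E5)⟫_ℝ
      · have h1 := gc_mem (r := r) (R := R) ⟪(z : E5), (x : E5)⟫_ℝ
        have h2 : |gc r R ⟪(z : E5), (x : E5)⟫_ℝ - 1| ≤ 1 := by
          rw [abs_le]
          constructor <;> linarith [h1.1, h1.2]
        calc _ ≤ 1 * D := mul_le_mul h2 (hc x h) (abs_nonneg _) zero_le_one
          _ = D := one_mul D
      · rw [gc_one hr hR (not_le.1 h).le, sub_self, abs_zero, zero_mul]
        exact hD0
  rw [hz] at key
  have h3 : mas f z r * (1 - mas f z R) ≤ 4 * (D + 2 * M / Real.log (R / r)) := by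
    linarith
  have h4 : 4 * (D + 2 * M / Real.log (R / r)) = 8 * M * (1 / Real.log (R / r)) + 4 * D := by
    ring
  have h5 : 0 ≤ 1 / Real.log (R / r) := by positivity
  nlinarith

end Pool.Agent.PQP.H58
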