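import Pool.Agent.PQP.StmtsC

/-!
# Row OSC of the squad PQP: oscillation of `log W ∘ mob b` away from the antipode
-/

set_option autoImplicit false

open scoped InnerProductSpace Topology ContDiff Manifold
open MeasureTheory Filter Set

noncomputable section

namespace Pool.Agent.PQP.H58

open Pool.Agent.Helper42_Paneitz Pool.Agent.Helper82_Vir Pool.Agent.FLX

theorem mob_fix (moa : MoaStmt) {b : E5} {w : S4} (hb : ‖b‖ < 1) (hw : b = ‖b‖ • (w : E5)) :
    mob b w = w := by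
  have h1 := (moa b hb).2.1 w
  have hk : sq b ^ 2 = 1 - ‖b‖ ^ 2 := by
    unfold Pool.Agent.FLX.sq
    exact Real.sq_sqrt (by nlinarith [norm_nonneg b])
  have hk0 : 0 ≤ sq b := Real.sqrt_nonneg _
  have hi : ⟪b, (w : E5)⟫_ℝ = ‖b‖ := by
    rw [hw, inner_smul_left, real_inner_self_eq_norm_sq, S4_norm, norm_smul, norm_norm, S4_norm]
    simp
  apply Subtype.ext
  rw [h1]
  unfold mobE
  rw [hi]
  have h2 : sq b • (w : E5) + (1 + ‖b‖ / (1 + sq b)) • b = (1 + ‖b‖) • (w : E5) := by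
    have h3 : (1 + ‖b‖ / (1 + sq b)) • b = ((1 + ‖b‖ / (1 + sq b)) * ‖b‖) • (w : E5) := by
      rw [mul_smul, ← hw]
    rw [h3, ← add_smul]
    congr 1
    field_simp
    nlinarith
  rw [h2, smul_smul, inv_mul_cancel₀ (by positivity), one_smul]

theorem osc (moa : MoaStmt) (lipb : LipbStmt) : OscStmt := by
  intro W G b w hLG hb hw x hx
  have hG : 0 ≤ G := by
    have h := hLG.2.2 w (w : E5)
    rw [S4_norm, mul_one] at h
    exact (abs_nonneg _).trans h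
  have h1 := (lipb W G hLG).1 (mob b x) w
  have hk : sq b ^ 2 = 1 - ‖b‖ ^ 2 := by
    unfold Pool.Agent.FLX.sq
    exact Real.sq_sqrt (by nlinarith [norm_nonneg b])
  have hk0 : 0 ≤ sq b := Real.sqrt_nonneg _
  have hi : ∀ y : S4, ⟪b, (y : E5)⟫_ℝ = ‖b‖ * ⟪(w : E5), (y : E5)⟫_ℝ := by
    intro y
    conv_lhs => rw [hw]
    rw [inner_smul_left]
    simp
  have hww : ⟪(w : E5), (w : E5)⟫_ℝ = 1 := by
    rw [real_inner_self_eq_norm_sq, S4_norm, one_pow]
  have h2 := (moa b hb).2.2.1 x w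
  have h3 := (moa b hb).1 x
  rw [mob_fix moa hb hw, hi, hi, hww, real_inner_comm (w : E5) (x : E5)] at h2
  rw [hi] at h3
  have hd : ‖(mob b x : E5) - (w : E5)‖ ^ 2 = 2 * (1 - ⟪(mob b x : E5), (w : E5)⟫_ℝ) := by
    rw [norm_sub_sq_real, S4_norm, S4_norm]
    ring
  have hs1 : ⟪(w : E5), (x : E5)⟫_ℝ ≤ 1 := inner_le_one w x
  set s := ⟪(w : E5), (x : E5)⟫_ℝ
  set l := ‖b‖ with hl
  have hl0 : 0 ≤ l := norm_nonneg b
  have h4 : (1 + s) / 2 ≤ 1 + l * s := by nlinarith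
  have h5 : 0 < 1 + s := by linarith
  have h6 : ‖(mob b x : E5) - (w : E5)‖ ^ 2 ≤ 8 * sq b ^ 2 / (1 + s) := by
    rw [hd, h2, hk, le_div_iff₀ h5, ← sub_nonneg]
    have e : 8 * (1 - l ^ 2) - 2 * ((1 - l ^ 2) * (1 - s) / ((1 + l * s) * (1 + l * 1))) * (1 + s) =
        (1 - l) * (8 * (1 + l) * (1 + l * s) - 2 * (1 - s) * (1 + s)) / (1 + l * s) := by
      field_simp
      ring
    rw [e]
    apply div_nonneg _ h3.le
    apply mul_nonneg (by linarith)
    nlinarith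
  have h7 : ‖(mob b x : E5) - (w : E5)‖ ≤ 3 * sq b / √(1 + s) := by
    apply abs_le_of_sq_le_sq' _ (by positivity) |>.2
    rw [div_pow, Real.sq_sqrt h5.le, mul_pow]
    refine h6.trans (div_le_div_of_nonneg_right ?_ h5.le)
    nlinarith [sq_nonneg (sq b)]
  calc _ ≤ 2 * G * ‖(mob b x : E5) - (w : E5)‖ := h1
    _ ≤ 2 * G * (3 * sq b / √(1 + s)) := mul_le_mul_of_nonneg_left h7 (by linarith)
    _ = 6 * G * sq b / √(1 + s) := by ring

end Pool.Agent.PQP.H58
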